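import Pool.Agent.R341.SG.Stm

/-!
# SG-JE: random permutations of a dense family meet a dense family (helper619 for helper341)
-/

namespace Pool.Agent.R619.SG

open Pool.Agent.R341.SG

open Finset

namespace JEx

variable {α : Type} [Fintype α] [DecidableEq α]

/-- the action of permutations on sets -/
def act (σ : Equiv.Perm α) (A : Finset α) : Finset α := A.map σ.toEmbedding

theorem act_mul (τ σ : Equiv.Perm α) (A : Finset α) : act (τ * σ) A = act τ (act σ A) := by
  unfold act
  rw [Finset.map_map]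
  rfl

theorem act_one (A : Finset α) : act 1 A = A := by
  unfold act
  exact Finset.map_refl

theorem act_compl (σ : Equiv.Perm α) (A : Finset α) : (act σ A)ᶜ = act σ Aᶜ := by
  unfold act
  ext x
  simp [Finset.mem_map_equiv]

theorem act_mem {a : ℕ} (σ : Equiv.Perm α) {A : Finset α} (hA : A ∈ powersetCard a univ) :
    act σ A ∈ powersetCard a univ := by
  rw [Finset.mem_powersetCard_univ] at hA ⊢
  unfold act
  rw [Finset.card_map]
  exact hA

theorem sum_act (a : ℕ) (σ : Equiv.Perm α) (f : Finset α → ℝ) :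
    ∑ A ∈ powersetCard a univ, f (act σ A) = ∑ A ∈ powersetCard a univ, f A := by
  refine Finset.sum_nbij' (fun A => act σ A) (fun A => act σ⁻¹ A) ?_ ?_ ?_ ?_ ?_
  · intro A hA; exact act_mem σ hA
  · intro A hA; exact act_mem σ⁻¹ hA
  · intro A _
    show act σ⁻¹ (act σ A) = A
    rw [← act_mul, inv_mul_cancel, act_one]
  · intro A _
    show act σ (act σ⁻¹ A) = A
    rw [← act_mul, mul_inv_cancel, act_one]
  · intro A _; rfl

/-- the averaged kernel -/
def ker (v : Finset α → ℝ) (A B : Finset α) : ℝ :=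
  ∑ σ : Equiv.Perm α, v (act σ A) * v (act σ B)

theorem ker_symm (v : Finset α → ℝ) (A B : Finset α) : ker v A B = ker v B A :=
  Finset.sum_congr rfl fun _ _ => mul_comm _ _

theorem ker_inv (v : Finset α → ℝ) (A B : Finset α) (π : Equiv.Perm α) :
    ker v (act π A) (act π B) = ker v A B := by
  unfold ker
  refine Fintype.sum_equiv (Equiv.mulRight π) _ _ fun σ => ?_
  rw [← act_mul, ← act_mul]
  rfl

/-- the quadratic form of the kernel -/
theorem quad (a : ℕ) (v F : Finset α → ℝ) :
    ∑ A ∈ powersetCard a univ, ∑ B ∈ powersetCard a univ, ker v A B * F A * F B =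
      ∑ σ : Equiv.Perm α, (∑ A ∈ powersetCard a univ, F A * v (act σ A)) ^ 2 := by
  have h1 : ∀ A B, ker v A B * F A * F B =
      ∑ σ : Equiv.Perm α, (F A * v (act σ A)) * (F B * v (act σ B)) := by
    intro A B
    unfold ker
    rw [Finset.sum_mul, Finset.sum_mul]
    exact Finset.sum_congr rfl fun σ _ => by ring
  simp only [h1]
  have h2 : ∀ A, ∑ B ∈ powersetCard a univ, ∑ σ : Equiv.Perm α,
      (F A * v (act σ A)) * (F B * v (act σ B)) =
      ∑ σ : Equiv.Perm α, ∑ B ∈ powersetCard a univ, (F A * v (act σ A)) * (F B * v (act σ B)) :=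
    fun A => Finset.sum_comm
  simp only [h2]
  rw [Finset.sum_comm]
  refine Finset.sum_congr rfl fun σ _ => ?_
  rw [sq, Finset.sum_mul_sum]

/-- the square norm of the kernel -/
theorem ker_sq (a : ℕ) (v : Finset α → ℝ) :
    ∑ A ∈ powersetCard a univ, ∑ B ∈ powersetCard a univ, ker v A B ^ 2 =
      (Fintype.card (Equiv.Perm α) : ℝ) *
        ∑ A ∈ powersetCard a univ, ∑ B ∈ powersetCard a univ, ker v A B * v A * v B := by
  have h1 : ∀ A B, ker v A B ^ 2 =
      ∑ τ : Equiv.Perm α, ker v (act τ A) (act τ B) * v (act τ A) * v (act τ B) := by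
    intro A B
    have h2 : ∀ τ : Equiv.Perm α, ker v (act τ A) (act τ B) * v (act τ A) * v (act τ B) =
        ker v A B * (v (act τ A) * v (act τ B)) := by
      intro τ
      rw [ker_inv]
      ring
    rw [Finset.sum_congr rfl fun τ _ => h2 τ, ← Finset.mul_sum, sq]
    rfl
  simp only [h1]
  have h2 : ∀ A, ∑ B ∈ powersetCard a univ, ∑ τ : Equiv.Perm α,
      ker v (act τ A) (act τ B) * v (act τ A) * v (act τ B) =
      ∑ τ : Equiv.Perm α, ∑ B ∈ powersetCard a univ,
        ker v (act τ A) (act τ B) * v (act τ A) * v (act τ B) := fun A => Finset.sum_comm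
  simp only [h2]
  rw [Finset.sum_comm]
  have h3 : ∀ τ : Equiv.Perm α, ∑ A ∈ powersetCard a univ, ∑ B ∈ powersetCard a univ,
      ker v (act τ A) (act τ B) * v (act τ A) * v (act τ B) =
      ∑ A ∈ powersetCard a univ, ∑ B ∈ powersetCard a univ, ker v A B * v A * v B := by
    intro τ
    have h4 : ∀ A, ∑ B ∈ powersetCard a univ,
        ker v (act τ A) (act τ B) * v (act τ A) * v (act τ B) =
        ∑ B ∈ powersetCard a univ, ker v (act τ A) B * v (act τ A) * v B := fun A =>
      sum_act a τ (fun B => ker v (act τ A) B * v (act τ A) * v B)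
    rw [Finset.sum_congr rfl fun A _ => h4 A]
    exact sum_act a τ (fun A => ∑ B ∈ powersetCard a univ, ker v A B * v A * v B)
  rw [Finset.sum_congr rfl fun τ _ => h3 τ, Finset.sum_const, Finset.card_univ, nsmul_eq_mul]

theorem sum_ind {N r : ℕ} (hN : Fintype.card α = N) (hr : r ≤ N) {W : Finset (Finset α)}
    (hW : W ⊆ powersetCard r univ) :
    ∑ A ∈ powersetCard (N - r) (univ : Finset α), (if Aᶜ ∈ W then (1 : ℝ) else 0) = W.card := by
  rw [Finset.sum_boole]
  congr 1
  refine Finset.card_nbij' (fun A => Aᶜ) (fun A => Aᶜ) ?_ ?_ ?_ ?_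
  · intro A hA
    rw [Finset.mem_coe, Finset.mem_filter] at hA
    exact hA.2
  · intro A hA
    rw [Finset.mem_coe] at hA
    rw [Finset.mem_coe, Finset.mem_filter, Finset.mem_powersetCard_univ, compl_compl]
    refine ⟨?_, hA⟩
    have := hW hA
    rw [Finset.mem_powersetCard_univ] at this
    rw [Finset.card_compl, hN, this]
  · intro A _
    show Aᶜᶜ = A
    exact compl_compl A
  · intro A _
    show Aᶜᶜ = A
    exact compl_compl A

end JEx

open JEx in
theorem je (h : SR2) : SJE := by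
  intro α _ _ N r hN hr h2r W B x y hx hy hW hB hxW hyB
  have hN0 : 0 < N := by omega
  have hNR : (0 : ℝ) < N := by exact_mod_cast hN0
  set a : ℕ := N - r with ha
  set M : ℝ := (N.choose r : ℝ) with hM
  have hM0 : 0 < M := by
    have : 0 < N.choose r := Nat.choose_pos hr
    rw [hM]
    exact Nat.cast_pos.2 this
  have hcS : ((powersetCard a (univ : Finset α)).card : ℝ) = M := by
    rw [Finset.card_powersetCard, Finset.card_univ, hN, hM, ha, Nat.choose_symm hr]
  set X : ℝ := W.card / M with hX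
  set Y : ℝ := B.card / M with hY
  have hXx : x ≤ X := by
    rw [hX, le_div_iff₀ hM0]
    exact hxW
  have hYy : y ≤ Y := by
    rw [hY, le_div_iff₀ hM0]
    exact hyB
  have hX0 : 0 < X := by linarith
  have hY0 : 0 < Y := by linarith
  have hWM : (W.card : ℝ) = M * X := by rw [hX, mul_comm, div_mul_cancel₀ _ hM0.ne']
  have hBM : (B.card : ℝ) = M * Y := by rw [hY, mul_comm, div_mul_cancel₀ _ hM0.ne']
  set w : Finset α → ℝ := fun A => if Aᶜ ∈ W then 1 else 0 with hw
  set b : Finset α → ℝ := fun A => if Aᶜ ∈ B then 1 else 0 with hb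
  have hws : ∑ A ∈ powersetCard a univ, w A = M * X := by
    rw [← hWM]
    exact sum_ind hN hr hW
  have hbs : ∑ A ∈ powersetCard a univ, b A = M * Y := by
    rw [← hBM]
    exact sum_ind hN hr hB
  have hw2 : ∀ A, w A ^ 2 = w A := by
    intro A
    show (if Aᶜ ∈ W then (1 : ℝ) else 0) ^ 2 = if Aᶜ ∈ W then 1 else 0
    split_ifs <;> norm_num
  have hb2 : ∀ A, b A ^ 2 = b A := by
    intro A
    show (if Aᶜ ∈ B then (1 : ℝ) else 0) ^ 2 = if Aᶜ ∈ B then 1 else 0
    split_ifs <;> norm_num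
  have hu0 : ∑ A ∈ powersetCard a univ, (w A - X) = 0 := by
    rw [Finset.sum_sub_distrib, hws, Finset.sum_const, nsmul_eq_mul, hcS]
    ring
  have hv0 : ∑ A ∈ powersetCard a univ, (b A - Y) = 0 := by
    rw [Finset.sum_sub_distrib, hbs, Finset.sum_const, nsmul_eq_mul, hcS]
    ring
  have husq : ∑ A ∈ powersetCard a univ, (w A - X) ^ 2 ≤ M * X := by
    have h1 : ∀ A, (w A - X) ^ 2 = w A - 2 * X * w A + X ^ 2 := by
      intro A
      have := hw2 A
      linear_combination this
    rw [Finset.sum_congr rfl fun A _ => h1 A, Finset.sum_add_distrib, Finset.sum_sub_distrib,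
      ← Finset.mul_sum, hws, Finset.sum_const, nsmul_eq_mul, hcS]
    nlinarith [mul_pos hM0 (mul_pos hX0 hX0)]
  have hvsq : ∑ A ∈ powersetCard a univ, (b A - Y) ^ 2 ≤ M * Y := by
    have h1 : ∀ A, (b A - Y) ^ 2 = b A - 2 * Y * b A + Y ^ 2 := by
      intro A
      have := hb2 A
      linear_combination this
    rw [Finset.sum_congr rfl fun A _ => h1 A, Finset.sum_add_distrib, Finset.sum_sub_distrib,
      ← Finset.mul_sum, hbs, Finset.sum_const, nsmul_eq_mul, hcS]
    nlinarith [mul_pos hM0 (mul_pos hY0 hY0)]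
  set u : Finset α → ℝ := fun A => w A - X with hu
  set v : Finset α → ℝ := fun A => b A - Y with hv
  set Us : ℝ := ∑ A ∈ powersetCard a univ, u A ^ 2 with hUs
  set Vs : ℝ := ∑ A ∈ powersetCard a univ, v A ^ 2 with hVs
  have hUs0 : 0 ≤ Us := Finset.sum_nonneg fun A _ => sq_nonneg _
  have hVs0 : 0 ≤ Vs := Finset.sum_nonneg fun A _ => sq_nonneg _
  set g : ℝ := (Fintype.card (Equiv.Perm α) : ℝ) with hg
  have hgN : g = (N.factorial : ℝ) := by
    rw [hg, Fintype.card_perm, hN]
  have hg0 : 0 < g := by rw [hgN]; positivity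
  set T : ℝ := ∑ A ∈ powersetCard a univ, ∑ B' ∈ powersetCard a univ,
    ker v A B' * v A * v B' with hT
  set U : ℝ := ∑ A ∈ powersetCard a univ, ∑ B' ∈ powersetCard a univ,
    ker v A B' * u A * u B' with hU
  have hT0 : 0 ≤ T := by
    rw [hT, quad]
    exact Finset.sum_nonneg fun σ _ => sq_nonneg _
  have h2a : 2 * a + 2 ≤ Fintype.card α := by rw [hN]; exact h2r
  have hkinv : ∀ A B' (π : Equiv.Perm α),
      ker v (A.map π.toEmbedding) (B'.map π.toEmbedding) = ker v A B' := fun A B' π =>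
    ker_inv v A B' π
  have e1 := h α a h2a (ker v) (ker_symm v) hkinv v hv0
  have e2 := h α a h2a (ker v) (ker_symm v) hkinv u hu0
  rw [ker_sq, hN] at e1 e2
  have e1' : T ^ 2 ≤ g * T / (N / 3) * Vs ^ 2 := e1
  have e2' : U ^ 2 ≤ g * T / (N / 3) * Us ^ 2 := e2
  have hTle : T ≤ 3 * g / N * Vs ^ 2 := by
    rcases eq_or_lt_of_le hT0 with h0 | h0
    · rw [← h0]; positivity
    · have h1 : g * T / (N / 3) * Vs ^ 2 = T * (3 * g / N * Vs ^ 2) := by
        field_simp
      rw [h1, sq] at e1'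
      exact le_of_mul_le_mul_left e1' h0
  have hUle : U ≤ 3 * g / N * (Vs * Us) := by
    have h1 : U ^ 2 ≤ (3 * g / N * (Vs * Us)) ^ 2 := by
      refine e2'.trans ?_
      have h3 : g * T / (N / 3) * Us ^ 2 = (3 * g / N * Us ^ 2) * T := by field_simp
      rw [h3]
      calc (3 * g / N * Us ^ 2) * T ≤ (3 * g / N * Us ^ 2) * (3 * g / N * Vs ^ 2) :=
            mul_le_mul_of_nonneg_left hTle (by positivity)
        _ = (3 * g / N * (Vs * Us)) ^ 2 := by ring
    exact (abs_le_of_sq_le_sq h1 (by positivity)) |> fun h => (le_abs_self U).trans h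
  -- the bad permutations
  set Bad := (univ : Finset (Equiv.Perm α)).filter fun σ => ∀ A ∈ W, A.map σ.toEmbedding ∉ B
    with hBad
  have hbad : ∀ σ ∈ Bad, (∑ A ∈ powersetCard a univ, u A * v (act σ A)) ^ 2 =
      (M * X * Y) ^ 2 := by
    intro σ hσ
    rw [hBad, Finset.mem_filter] at hσ
    have h1 : ∀ A, u A * v (act σ A) = X * Y - X * b (act σ A) - Y * w A := by
      intro A
      have h3 : w A * b (act σ A) = 0 := by
        show (if Aᶜ ∈ W then (1 : ℝ) else 0) * (if (act σ A)ᶜ ∈ B then 1 else 0) = 0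
        by_cases hA : Aᶜ ∈ W
        · have h4 : (act σ A)ᶜ ∉ B := by
            rw [act_compl]
            exact hσ.2 _ hA
          rw [if_neg h4, mul_zero]
        · rw [if_neg hA, zero_mul]
      show (w A - X) * (b (act σ A) - Y) = _
      linear_combination h3
    rw [Finset.sum_congr rfl fun A _ => h1 A, Finset.sum_sub_distrib, Finset.sum_sub_distrib,
      Finset.sum_const, nsmul_eq_mul, hcS, ← Finset.mul_sum, ← Finset.mul_sum, sum_act a σ b,
      hws, hbs]
    ring
  have hsum : (Bad.card : ℝ) * (M * X * Y) ^ 2 ≤ U := by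
    calc (Bad.card : ℝ) * (M * X * Y) ^ 2 = ∑ _σ ∈ Bad, (M * X * Y) ^ 2 := by
          rw [Finset.sum_const, nsmul_eq_mul]
      _ = ∑ σ ∈ Bad, (∑ A ∈ powersetCard a univ, u A * v (act σ A)) ^ 2 :=
          (Finset.sum_congr rfl hbad).symm
      _ ≤ ∑ σ, (∑ A ∈ powersetCard a univ, u A * v (act σ A)) ^ 2 :=
          Finset.sum_le_sum_of_subset_of_nonneg (Finset.filter_subset _ _)
            fun σ _ _ => sq_nonneg _
      _ = U := by rw [hU, quad]
  have hfin : (Bad.card : ℝ) * (M * X * Y) ^ 2 ≤ 3 * g / N * ((M * Y) * (M * X)) := by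
    refine hsum.trans (hUle.trans ?_)
    apply mul_le_mul_of_nonneg_left _ (by positivity)
    exact mul_le_mul hvsq husq hUs0 (mul_pos hM0 hY0).le
  have hP : 0 < M ^ 2 * X * Y := mul_pos (mul_pos (pow_pos hM0 2) hX0) hY0
  have h5 : (Bad.card : ℝ) * (X * Y) ≤ 3 * g / N := by
    have h6 : ((Bad.card : ℝ) * (X * Y)) * (M ^ 2 * X * Y) ≤ (3 * g / N) * (M ^ 2 * X * Y) := by
      calc ((Bad.card : ℝ) * (X * Y)) * (M ^ 2 * X * Y) =
            (Bad.card : ℝ) * (M * X * Y) ^ 2 := by ring
        _ ≤ 3 * g / N * ((M * Y) * (M * X)) := hfin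
        _ = _ := by ring
    exact le_of_mul_le_mul_right h6 hP
  have h7 : (Bad.card : ℝ) * (x * y) ≤ 3 * g / N := by
    refine le_trans (mul_le_mul_of_nonneg_left ?_ (Nat.cast_nonneg _)) h5
    exact mul_le_mul hXx hYy hy.le hX0.le
  rw [← hgN]
  have h8 : 3 / (N * x * y) * g = (3 * g / N) / (x * y) := by field_simp
  rw [h8, le_div_iff₀ (by positivity)]
  exact h7

end Pool.Agent.R619.SG
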